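import Mathlib

/-!
# A connected `2`-terminal graph other than `P_5`

All graphs are simple graphs on a finite vertex type.  The `r`-ball of `v` is the set of vertices
at (extended) distance at most `r` from `v`, with `SimpleGraph.edist`, which is `⊤` for vertices in
different components.  A graph is `r`-twin-free if distinct vertices have distinct `r`-balls, and
it is `r`-terminal if it is `r`-twin-free and the deletion of any single vertex (the induced
subgraph on the other vertices, with its own distance) is not `r`-twin-free.

We exhibit a connected graph with `9` vertices and `11` edges that is `2`-terminal.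
-/

namespace Pool.Agent.Results.MP_3d4fca_co.NineVertexTerminal

open SimpleGraph

/-- The `r`-ball of `v` in `G`. -/
def ball {V : Type} (G : SimpleGraph V) (r : ℕ) (v : V) : Set V := {u | G.edist v u ≤ (r : ℕ∞)}

/-- `G` has no pair of distinct vertices with equal `r`-balls. -/
def TwinFree {V : Type} (G : SimpleGraph V) (r : ℕ) : Prop :=
  ∀ u v : V, u ≠ v → ball G r u ≠ ball G r v

/-- `G ∖ {v}`: the induced subgraph on the vertices different from `v`. -/
def del {V : Type} (G : SimpleGraph V) (v : V) : SimpleGraph {w : V // w ≠ v} :=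
  G.comap Subtype.val

/-- `G` is `r`-terminal. -/
def Terminal {V : Type} (G : SimpleGraph V) (r : ℕ) : Prop :=
  TwinFree G r ∧ ∀ v : V, ¬ TwinFree (del G v) r

/-! ### Distance at most two -/

theorem edist_le_two_iff {V : Type} (G : SimpleGraph V) (a b : V) :
    G.edist a b ≤ ((2 : ℕ) : ℕ∞) ↔ a = b ∨ G.Adj a b ∨ ∃ c, G.Adj a c ∧ G.Adj c b := by
  constructor
  · intro h
    have hne : G.edist a b ≠ ⊤ := by
      intro ht
      rw [ht] at h
      exact absurd h (by simp)
    obtain ⟨p, hp⟩ := exists_walk_of_edist_ne_top hne
    rw [← hp] at h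
    have hl : p.length ≤ 2 := by exact_mod_cast h
    cases p with
    | nil => exact Or.inl rfl
    | cons h1 p1 =>
      cases p1 with
      | nil => exact Or.inr (Or.inl h1)
      | cons h2 p2 =>
        cases p2 with
        | nil => exact Or.inr (Or.inr ⟨_, h1, h2⟩)
        | cons h3 p3 =>
          simp only [Walk.length_cons] at hl
          omega
  · rintro (rfl | h | ⟨c, h1, h2⟩)
    · simp
    · have := edist_le (Walk.cons h Walk.nil)
      simp only [Walk.length_cons, Walk.length_nil] at this
      exact this.trans (by norm_num)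
    · have := edist_le (Walk.cons h1 (Walk.cons h2 Walk.nil))
      simp only [Walk.length_cons, Walk.length_nil] at this
      exact this.trans (by norm_num)

theorem mem_ball_two {V : Type} (G : SimpleGraph V) (a b : V) :
    b ∈ ball G 2 a ↔ (a = b ∨ G.Adj a b ∨ ∃ c, G.Adj a c ∧ G.Adj c b) :=
  edist_le_two_iff G a b

theorem twinFree_two_iff {V : Type} (G : SimpleGraph V) :
    TwinFree G 2 ↔ ∀ u v : V, u ≠ v → ∃ w : V,
      ¬ ((u = w ∨ G.Adj u w ∨ ∃ c, G.Adj u c ∧ G.Adj c w) ↔
         (v = w ∨ G.Adj v w ∨ ∃ c, G.Adj v c ∧ G.Adj c w)) := by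
  constructor
  · intro h u v huv
    by_contra hcon
    push Not at hcon
    apply h u v huv
    ext w
    rw [mem_ball_two, mem_ball_two]
    exact hcon w
  · intro h u v huv heq
    obtain ⟨w, hw⟩ := h u v huv
    apply hw
    rw [← mem_ball_two, ← mem_ball_two, heq]

/-! ### The graph -/

/-- Neighbour lists of the graph `H`. -/
def nb : Fin 9 → Finset (Fin 9) :=
  ![{8}, {7}, {7, 8}, {6, 8}, {5, 7}, {4, 6, 7}, {3, 5, 8}, {1, 2, 4, 5}, {0, 2, 3, 6}]

/-- The graph `H` on nine vertices. -/
def H : SimpleGraph (Fin 9) where
  Adj a b := b ∈ nb a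
  symm := ⟨by decide⟩
  loopless := ⟨by decide⟩

instance : DecidableRel H.Adj := fun a b => inferInstanceAs (Decidable (b ∈ nb a))

instance (v : Fin 9) : DecidableRel (del H v).Adj :=
  fun a b => inferInstanceAs (Decidable (b.1 ∈ nb a.1))

theorem H_twinFree : TwinFree H 2 := by
  rw [twinFree_two_iff]
  decide +kernel

theorem H_del : ∀ v : Fin 9, ¬ TwinFree (del H v) 2 := by
  intro v
  rw [twinFree_two_iff]
  revert v
  decide +kernel

theorem H_connected : H.Connected := by
  have h8 : ∀ v : Fin 9, H.Reachable v 8 := by
    have a08 : H.Adj 0 8 := by decide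
    have a17 : H.Adj 1 7 := by decide
    have a27 : H.Adj 7 2 := by decide
    have a28 : H.Adj 2 8 := by decide
    have a38 : H.Adj 3 8 := by decide
    have a47 : H.Adj 4 7 := by decide
    have a57 : H.Adj 5 7 := by decide
    have a68 : H.Adj 6 8 := by decide
    have r7 : H.Reachable 7 8 := a27.reachable.trans a28.reachable
    intro v
    fin_cases v
    · exact a08.reachable
    · exact a17.reachable.trans r7
    · exact a28.reachable
    · exact a38.reachable
    · exact a47.reachable.trans r7
    · exact a57.reachable.trans r7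
    · exact a68.reachable
    · exact r7
    · exact Reachable.refl _
  have : Nonempty (Fin 9) := ⟨0⟩
  exact ⟨fun u v => (h8 u).trans (h8 v).symm⟩

/-- There is a connected `2`-terminal graph that is not isomorphic to `P_5`. -/
theorem result :
    ∃ G : SimpleGraph (Fin 9), G.Connected ∧ Terminal G 2 ∧ IsEmpty (G ≃g pathGraph 5) := by
  refine ⟨H, H_connected, ⟨H_twinFree, H_del⟩, ⟨fun e => ?_⟩⟩
  have := Fintype.card_congr e.toEquiv
  simp at this

end Pool.Agent.Results.MP_3d4fca_co.NineVertexTerminal
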